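import Pool.Agent.H15.G.R_seed8.TH745.MN.Defs

/-! Transfer of independence for several sites (helper592, for helper745). -/

set_option autoImplicit false

namespace Pool.Agent.TH592.MN

open Finset Pool.Agent.TH176.Nag Pool.Agent.TH603.Sur Pool.Agent.TH745.MN

theorem Sur_sigma {β : Type} [Fintype β] [DecidableEq β] {κ : β → Type} [∀ i, Fintype (κ i)]
    {w : (Σ i, κ i) → ℕ} {S : Finset (ℤ × ℤ)} {S' : β → Finset (ℤ × ℤ)}
    (hc : ∑ i, (S' i).card ≤ S.card)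
    (h : ∀ (κ' : β → Type) [∀ i, Fintype (κ' i)] (v : (Σ i, κ' i) → ℕ),
      (∀ i, Emp (fun j => v ⟨i, j⟩) (↑(S' i) : Set (ℤ × ℤ))) → Emp v (↑S : Set (ℤ × ℤ)))
    (h' : ∀ i, Sur (fun j => w ⟨i, j⟩) (↑(S' i) : Set (ℤ × ℤ))) : Sur w (↑S : Set (ℤ × ℤ)) := by
  classical
  choose T h1 h2 h3 using h'
  have h1' : ∀ i, T i ⊆ S' i := fun i => by exact_mod_cast h1 i
  let k : β → ℕ := fun i => (S' i \ T i).card
  let v : (Σ i, κ i ⊕ Fin (k i)) → ℕ := fun p => Sum.elim (fun j => w ⟨p.1, j⟩) (fun _ => 1) p.2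
  have hv : Emp v (↑S : Set (ℤ × ℤ)) := by
    refine h (fun i => κ i ⊕ Fin (k i)) v fun i => ?_
    have h4 := Emp_union (h3 i) (S' i \ T i)
    rw [union_sdiff_of_subset (h1' i)] at h4
    exact h4
  have hcard : Fintype.card (Σ i, Fin (k i)) = ∑ i, k i := by
    rw [Fintype.card_sigma]
    simp
  let e : (Σ i, Fin (k i)) ≃ Fin (∑ i, k i) := Fintype.equivFinOfCardEq hcard
  let g : (Σ i, κ i ⊕ Fin (k i)) ≃ (Σ i, κ i) ⊕ Fin (∑ i, k i) :=
    (Equiv.sigmaSumDistrib κ (fun i => Fin (k i))).trans (Equiv.sumCongr (Equiv.refl _) e)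
  have h5 : Emp (Sum.elim w (fun _ : Fin (∑ i, k i) => 1)) (↑S : Set (ℤ × ℤ)) := by
    refine Emp_emb (g : (Σ i, κ i ⊕ Fin (k i)) → (Σ i, κ i) ⊕ Fin (∑ i, k i)) g.injective ?_ hv
    rintro ⟨i, (j | l)⟩
    · exact le_rfl
    · exact le_rfl
  refine Sur_of_Emp (∑ i, k i) ?_ h5
  have h6 : Pool.Agent.TH603.Sur.cond w = ∑ i, (T i).card := by
    unfold Pool.Agent.TH603.Sur.cond
    rw [Fintype.sum_sigma]
    exact Finset.sum_congr rfl fun i _ => (h2 i).symm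
  have h7 : ∀ i, (T i).card + k i = (S' i).card := by
    intro i
    show (T i).card + (S' i \ T i).card = (S' i).card
    rw [card_sdiff_of_subset (h1' i)]
    have := card_le_card (h1' i)
    omega
  rw [h6, ← Finset.sum_add_distrib, Finset.sum_congr rfl fun i _ => h7 i]
  exact hc

end Pool.Agent.TH592.MN
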